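import Mathlib
import Pool.Agent.TH310.Cor.Whit2

/-!
The function `1 - ⟨q, z⟩`: base points of characters, and local solutions near `q`.
-/

set_option autoImplicit false

open Metric Set Filter Topology WeakDual

namespace Pool.Agent.U598.Cor

open Pool.Agent.TH310.Cor
open Pool.Agent.H326R3.CB (Bt)

variable {m : ℕ}

/-- the base point of a character which annihilates `1 - ⟨q, z⟩` -/
theorem pt_of_Lo {I : Type} [TopologicalSpace I] [DiscreteTopology I]
    (χ : characterSpace ℂ (HI I m)) {q : V m} (hq : ‖q‖ = 1)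
    (h : χ (El (I := I) (f := fun _ => Lo q) (fun _ => HB_Lo hq)) = 0) : pt χ = q := by
  have h1 : (El (I := I) (f := fun _ => Lo q) (fun _ => HB_Lo hq) : HI I m) =
      Cc (1 / 2) * (1 - Lw q) := by
    apply ext'
    intro x
    change (1 - inner ℂ q (x.2 : V m)) / 2 = 1 / 2 * (1 - inner ℂ q (x.2 : V m))
    ring
  rw [h1, map_mul, char_Cc, map_sub, map_one, char_Lw] at h
  have h2 : (inner ℂ q (pt χ) : ℂ) = 1 := by
    have h3 : (1 : ℂ) - inner ℂ q (pt χ) = 0 := by
      rcases mul_eq_zero.1 h with h4 | h4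
      · norm_num at h4
      · exact h4
    linear_combination -h3
  have h3 : ‖pt χ - q‖ ^ 2 ≤ 0 := by
    rw [norm_sub_sq (𝕜 := ℂ), hq]
    have h4 : RCLike.re (inner ℂ (pt χ) q : ℂ) = 1 := by
      have h5 : RCLike.re (inner ℂ (pt χ) q : ℂ) = RCLike.re (inner ℂ q (pt χ) : ℂ) :=
        inner_re_symm (𝕜 := ℂ) _ _
      rw [h5, h2]; simp
    rw [h4]
    have h5 := pt_norm χ
    nlinarith [norm_nonneg (pt χ)]
  have h4 : ‖pt χ - q‖ = 0 := by
    have := norm_nonneg (pt χ - q)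
    nlinarith
  exact sub_eq_zero.1 (norm_eq_zero.1 h4)

/-- from solutions with the additional function `1 - ⟨q, z⟩` to local solutions -/
theorem solvL_of_Lo {q : V m} (hq : ‖q‖ = 1) {I ι : Type} [Fintype ι] {F : I → ι → V m → ℂ}
    (h : Solv (fun i (o : ι ⊕ Unit) (z : V m) => o.elim (fun j => F i j z) (fun _ => Lo q z))) :
    SolvL F q := by
  obtain ⟨C, hC⟩ := h
  obtain ⟨C', hC'⟩ : ∃ C', C' = max C 1 := ⟨_, rfl⟩
  have hC'1 : 1 ≤ C' := by rw [hC']; exact le_max_right _ _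
  have hCC' : C ≤ C' := by rw [hC']; exact le_max_left _ _
  refine ⟨2 * C', 1 / C', by positivity, fun i => ?_⟩
  obtain ⟨g, h1, h2, h3⟩ := hC i
  have hlo : ∀ z ∈ ball (0 : V m) 1 ∩ ball q (1 / C'), 1 / 2 ≤ ‖1 - Lo q z * g (Sum.inr ()) z‖ := by
    rintro z ⟨hz, hzq⟩
    rw [mem_ball, dist_eq_norm] at hzq
    have h4 : ‖Lo q z‖ ≤ 1 / C' / 2 := by
      unfold Lo
      rw [norm_div]
      have h4 : ‖(2 : ℂ)‖ = 2 := by norm_num
      rw [h4]
      have h5 : (1 : ℂ) - inner ℂ q z = inner ℂ q (q - z) := by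
        rw [inner_sub_right, inner_self_eq_norm_sq_to_K, hq]
        norm_num
      have h6 : ‖(1 : ℂ) - inner ℂ q z‖ ≤ ‖z - q‖ := by
        rw [h5]
        refine (norm_inner_le_norm _ _).trans ?_
        rw [hq, one_mul, norm_sub_rev]
      linarith
    have h5 : ‖Lo q z * g (Sum.inr ()) z‖ ≤ 1 / 2 := by
      rw [norm_mul]
      calc ‖Lo q z‖ * ‖g (Sum.inr ()) z‖ ≤ (1 / C' / 2) * C' := by
            gcongr
            exact (h2 _ z hz).trans hCC'
        _ = 1 / 2 := by field_simp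
    have h6 := norm_sub_norm_le (1 : ℂ) (Lo q z * g (Sum.inr ()) z)
    rw [norm_one] at h6
    linarith
  have hsb : ball (0 : V m) 1 ∩ ball q (1 / C') ⊆ ball (0 : V m) 1 := inter_subset_left
  have hne : ∀ z ∈ ball (0 : V m) 1 ∩ ball q (1 / C'), 1 - Lo q z * g (Sum.inr ()) z ≠ 0 := by
    intro z hz h4
    have h5 := hlo z hz
    rw [h4, norm_zero] at h5
    norm_num at h5
  refine ⟨fun j z => g (Sum.inl j) z * (1 - Lo q z * g (Sum.inr ()) z)⁻¹, ?_, ?_, ?_⟩
  · intro j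
    have h4 : DifferentiableOn ℂ (fun z => 1 - Lo q z * g (Sum.inr ()) z)
        (ball (0 : V m) 1 ∩ ball q (1 / C')) := by
      have h5 : DifferentiableOn ℂ (fun z => Lo q z * g (Sum.inr ()) z) (ball (0 : V m) 1) :=
        (HB_Lo hq).1.mul (h1 _)
      exact (h5.mono hsb).const_sub 1
    exact ((h1 _).mono hsb).mul (h4.inv hne)
  · intro j z hz
    rw [norm_mul, norm_inv]
    have h4 := hlo z hz
    have h5 : ‖1 - Lo q z * g (Sum.inr ()) z‖⁻¹ ≤ 2 := by
      rw [inv_le_comm₀ (by linarith) (by norm_num)]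
      linarith
    calc ‖g (Sum.inl j) z‖ * ‖1 - Lo q z * g (Sum.inr ()) z‖⁻¹ ≤ C' * 2 := by
          gcongr
          exact (h2 _ z hz.1).trans hCC'
      _ = 2 * C' := by ring
  · intro z hz
    have h4 := h3 z hz.1
    rw [Fintype.sum_sum_type] at h4
    simp only [Sum.elim_inl, Sum.elim_inr, Finset.univ_unique, Finset.sum_singleton] at h4
    have h5 : ∑ j, F i j z * g (Sum.inl j) z = 1 - Lo q z * g (Sum.inr ()) z := by
      rw [← h4]
      change _ = _ + Lo q z * g (Sum.inr ()) z - Lo q z * g (Sum.inr ()) z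
      ring
    have h6 : ∑ j, F i j z * (g (Sum.inl j) z * (1 - Lo q z * g (Sum.inr ()) z)⁻¹) =
        (∑ j, F i j z * g (Sum.inl j) z) * (1 - Lo q z * g (Sum.inr ()) z)⁻¹ := by
      rw [Finset.sum_mul]
      exact Finset.sum_congr rfl fun j _ => by ring
    rw [h6, h5]
    exact mul_inv_cancel₀ (hne z hz)

end Pool.Agent.U598.Cor
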