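import Mathlib
import Pool.Agent.U598.Cor.Glob
import Pool.Agent.Y263.GF.Alg

/-!
Values of characters at one arbitrary function and finitely many functions with affine fibres are
approached near the base point.
-/

set_option autoImplicit false

open Metric Set Filter Topology WeakDual

namespace Pool.Agent.U598.Cor

open Pool.Agent.TH310.Cor
open Pool.Agent.H326R3.CB (Bt)
open Pool.Agent.Y263.GF (AD tuple_cor frac_AF)

variable {m : ℕ}

/-- functions `f ∘ ψ`, `ψ` with affine fibres, bounded by one -/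
def SFn (g : V m → ℂ) : Prop :=
  ∃ (f : ℂ → ℂ) (ψ : V m → ℂ), DifferentiableOn ℂ f (ball 0 1) ∧
    (∀ w ∈ ball (0 : ℂ) 1, ‖f w‖ ≤ 1) ∧ AD ψ ∧ ∀ z ∈ ball (0 : V m) 1, g z = f (ψ z)

theorem SFn.HB {g : V m → ℂ} (h : SFn g) : HB g := by
  obtain ⟨f, ψ, hf, hfb, hψ, hg⟩ := h
  have hm : MapsTo ψ (ball 0 1) (ball 0 1) := fun z hz => by
    rw [mem_ball_zero_iff]; exact hψ.2 z hz
  exact ⟨(hf.comp hψ.1.1 hm).congr hg, fun z hz => by rw [hg z hz]; exact hfb _ (hm hz)⟩

theorem AD_inner {q : V m} (hq : ‖q‖ = 1) : AD (fun z : V m => (inner ℂ q z : ℂ)) := by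
  have h1 := frac_AF (innerSL ℂ q) 0 0 1 (X := V m) (by simp)
  simp only [innerSL_apply_apply, add_zero, zero_apply, zero_add, div_one] at h1
  refine ⟨h1, fun z hz => ?_⟩
  rw [mem_ball_zero_iff] at hz
  refine lt_of_le_of_lt (norm_inner_le_norm q z) ?_
  rw [hq, one_mul]
  exact hz

theorem vals_near {I : Type} [TopologicalSpace I] [DiscreteTopology I]
    (χ : characterSpace ℂ (HI I m)) {q : V m} (hq : ‖q‖ = 1) (hχ : pt χ = q) (E : Set I)
    (hE : χ (Id m E) = 1) (G : HI I m) {Λ : Type} [Fintype Λ] (g : I → Λ → V m → ℂ)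
    (hg : ∀ i l, SFn (g i l)) {η ρ : ℝ} (hη : 0 < η) (hρ : 0 < ρ) :
    ∃ i ∈ E, ∃ z : Bt m, ‖(z : V m) - q‖ < ρ ∧ ‖G.1 (i, z) - χ G‖ ≤ η ∧
      ∀ l, ‖g i l z - χ (El (f := fun i => g i l) (fun i => (hg i l).HB))‖ ≤ η := by
  classical
  by_contra hcon
  push Not at hcon
  choose Gf hGf hGfG using G.2
  obtain ⟨v, hv⟩ : ∃ v, v = χ G := ⟨_, rfl⟩
  obtain ⟨u, hu⟩ : ∃ u : Λ → ℂ, u = fun l => χ (El (f := fun i => g i l) (fun i => (hg i l).HB)) :=
    ⟨_, rfl⟩
  have hu1 : ∀ l, ‖u l‖ ≤ 1 := by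
    intro l
    rw [hu]
    exact (char_le χ _).trans (norm_le zero_le_one fun x => (hg x.1 l).HB.2 x.2 x.2.2)
  have hv1 : ‖v‖ ≤ ‖G‖ := by rw [hv]; exact char_le χ G
  obtain ⟨R, hR⟩ : ∃ R, R = 2 * ‖G‖ + 1 := ⟨_, rfl⟩
  have hR0 : 0 < R := by rw [hR]; positivity
  have hRn : ‖(R : ℂ)‖ = R := by rw [Complex.norm_real, Real.norm_of_nonneg hR0.le]
  have h2n : ‖(2 : ℂ)‖ = 2 := by norm_num
  have hGb : ∀ i, ∀ z ∈ ball (0 : V m) 1, ‖Gf i z‖ ≤ ‖G‖ := by
    intro i z hz
    have := le_norm G (i, ⟨z, hz⟩)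
    rwa [hGfG] at this
  obtain ⟨F, hF⟩ : ∃ F : I → Λ ⊕ (Unit ⊕ Unit) → V m → ℂ, F = fun i o z =>
      Sum.elim (fun l => (g i l z - u l) / 2) (Sum.elim (fun _ => Lo q z)
        (fun _ => (Gf i z - v) / R)) o := ⟨_, rfl⟩
  have hF1 : ∀ i l z, F i (Sum.inl l) z = (g i l z - u l) / 2 := fun i l z => by rw [hF]; rfl
  have hF2 : ∀ i z, F i (Sum.inr (Sum.inl ())) z = Lo q z := fun i z => by rw [hF]; rfl
  have hF3 : ∀ i z, F i (Sum.inr (Sum.inr ())) z = (Gf i z - v) / R := fun i z => by rw [hF]; rfl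
  have hFH : ∀ i o, HB (F i o) := by
    intro i o
    rcases o with l | o | o
    · refine ⟨?_, fun z hz => ?_⟩
      · have h1 : DifferentiableOn ℂ (fun z => (g i l z - u l) * (2 : ℂ)⁻¹) (ball 0 1) :=
          ((hg i l).HB.1.sub_const _).mul_const _
        have h2 : F i (Sum.inl l) = fun z => (g i l z - u l) * (2 : ℂ)⁻¹ := by
          funext z; rw [hF1, div_eq_mul_inv]
        rw [h2]; exact h1
      · rw [hF1, norm_div, h2n, div_le_one (by norm_num)]
        have h1 := (hg i l).HB.2 z hz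
        have h2 := norm_sub_le (g i l z) (u l)
        have h3 := hu1 l
        linarith
    · have h2 : F i (Sum.inr (Sum.inl o)) = Lo q := by
        funext z; exact hF2 i z
      rw [h2]; exact HB_Lo hq
    · refine ⟨?_, fun z hz => ?_⟩
      · have h1 : DifferentiableOn ℂ (fun z => (Gf i z - v) * (R : ℂ)⁻¹) (ball 0 1) :=
          ((hGf i).sub_const _).mul_const _
        have h2 : F i (Sum.inr (Sum.inr o)) = fun z => (Gf i z - v) * (R : ℂ)⁻¹ := by
          funext z; rw [← div_eq_mul_inv]; exact hF3 i z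
        rw [h2]; exact h1
      · have h4 : F i (Sum.inr (Sum.inr o)) z = (Gf i z - v) / R := hF3 i z
        rw [h4, norm_div, hRn, div_le_one hR0]
        have h1 := hGb i z hz
        have h2 := norm_sub_le (Gf i z) v
        linarith
  have h0 : ∀ o, χ (El (f := fun i => F i o) (fun i => hFH i o)) = 0 := by
    intro o
    rcases o with l | o | o
    · have h1 : El (f := fun i => F i (Sum.inl l)) (fun i => hFH i (Sum.inl l)) =
          Cc (1 / 2) * (El (f := fun i => g i l) (fun i => (hg i l).HB) - Cc (u l)) := by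
        apply ext'
        intro x
        change F x.1 (Sum.inl l) x.2 = 1 / 2 * (g x.1 l x.2 - u l)
        rw [hF1]; ring
      rw [h1, map_mul, map_sub, char_Cc, char_Cc, hu, sub_self, mul_zero]
    · have h1 : El (f := fun i => F i (Sum.inr (Sum.inl o))) (fun i => hFH i (Sum.inr (Sum.inl o))) =
          Cc (1 / 2) * (1 - Lw q) := by
        apply ext'
        intro x
        change F x.1 (Sum.inr (Sum.inl ())) x.2 = 1 / 2 * (1 - inner ℂ q (x.2 : V m))
        rw [hF2]; unfold Lo; ring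
      rw [h1, map_mul, char_Cc, map_sub, map_one, char_Lw, hχ, inner_self_eq_norm_sq_to_K, hq]
      norm_num
    · have h1 : El (f := fun i => F i (Sum.inr (Sum.inr o))) (fun i => hFH i (Sum.inr (Sum.inr o))) =
          Cc (1 / R) * (G - Cc v) := by
        apply ext'
        rintro ⟨i, z⟩
        change F i (Sum.inr (Sum.inr ())) z = 1 / R * (G.1 (i, z) - v)
        rw [hF3, hGfG]; ring
      rw [h1, map_mul, map_sub, char_Cc, char_Cc, hv, sub_self, mul_zero]
  refine not_solv hFH χ E hE h0 ?_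
  -- lower bound
  obtain ⟨δ, hδ⟩ : ∃ δ : ℝ, δ = min (min (η / 2) (η / R)) (ρ ^ 2 / 4) := ⟨_, rfl⟩
  have hδ0 : 0 < δ := by rw [hδ]; positivity
  have hδ1 : δ ≤ η / 2 := by rw [hδ]; exact (min_le_left _ _).trans (min_le_left _ _)
  have hδ2 : δ ≤ η / R := by rw [hδ]; exact (min_le_left _ _).trans (min_le_right _ _)
  have hδ3 : δ ≤ ρ ^ 2 / 4 := by rw [hδ]; exact min_le_right _ _
  have hlow : ∀ i ∈ E, ∀ z ∈ ball (0 : V m) 1,
      δ ≤ (∑ l, ‖(g i l z - u l) / 2‖ + ‖Lo q z‖) + ‖(Gf i z - v) / R‖ := by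
    intro i hi z hz
    have hs0 : 0 ≤ ∑ l, ‖(g i l z - u l) / 2‖ := Finset.sum_nonneg fun l _ => norm_nonneg _
    have hl0 := norm_nonneg (Lo q z)
    have hG0 := norm_nonneg ((Gf i z - v) / (R : ℂ))
    by_cases hzq : ‖z - q‖ < ρ
    · by_cases hGz : ‖Gf i z - v‖ ≤ η
      · obtain ⟨l, hl⟩ := hcon i hi ⟨z, hz⟩ hzq (by rw [hGfG, ← hv]; exact hGz)
        have h1 : η < ‖g i l z - u l‖ := by rw [hu]; exact hl
        have h2 := Finset.single_le_sum (f := fun l => ‖(g i l z - u l) / 2‖)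
          (fun l _ => norm_nonneg _) (Finset.mem_univ l)
        have h3 : ‖(g i l z - u l) / 2‖ = ‖g i l z - u l‖ / 2 := by rw [norm_div, h2n]
        rw [h3] at h2
        linarith
      · push Not at hGz
        have h3 : ‖(Gf i z - v) / (R : ℂ)‖ = ‖Gf i z - v‖ / R := by rw [norm_div, hRn]
        have h4 : η / R ≤ ‖Gf i z - v‖ / R := by gcongr
        rw [h3]
        linarith
    · push Not at hzq
      have h1 := Lo_ge hq hz hρ.le hzq
      linarith
  have hg' := hg
  unfold SFn at hg'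
  choose f ψ hf hfb hψ hgf using hg'
  obtain ⟨C, hC, H⟩ := tuple_cor (Fintype.card (Option Λ)) hδ0 one_pos
  refine ⟨C, ?_⟩
  rintro ⟨i, hi⟩
  let e := Fintype.equivFin (Option Λ)
  have k1 : ∀ k, AD ((e.symm k).elim (fun z => (inner ℂ q z : ℂ)) (fun l => ψ i l)) := by
    intro k
    rcases e.symm k with _ | l
    · exact AD_inner hq
    · exact hψ i l
  have k2 : ∀ k, DifferentiableOn ℂ
      ((e.symm k).elim (fun w : ℂ => (1 - w) / 2) (fun l w => (f i l w - u l) / 2)) (ball 0 1) := by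
    intro k
    rcases e.symm k with _ | l
    · simp only [Option.elim_none]
      fun_prop
    · simp only [Option.elim_some, div_eq_mul_inv]
      exact ((hf i l).sub_const _).mul_const _
  have k3 : ∀ k, ∀ w ∈ ball (0 : ℂ) 1,
      ‖(e.symm k).elim (fun w : ℂ => (1 - w) / 2) (fun l w => (f i l w - u l) / 2) w‖ ≤ 1 := by
    intro k w hw
    rcases e.symm k with _ | l
    · simp only [Option.elim_none]
      rw [norm_div, h2n, div_le_one (by norm_num)]
      rw [mem_ball_zero_iff] at hw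
      have := norm_sub_le (1 : ℂ) w
      rw [norm_one] at this
      linarith
    · simp only [Option.elim_some]
      rw [norm_div, h2n, div_le_one (by norm_num)]
      have h1 := hfb i l w hw
      have h2 := norm_sub_le (f i l w) (u l)
      have h3 := hu1 l
      linarith
  have k4 : DifferentiableOn ℂ (fun z => (Gf i z - v) / (R : ℂ)) (ball 0 1) := by
    have h1 : DifferentiableOn ℂ (fun z => (Gf i z - v) * (R : ℂ)⁻¹) (ball 0 1) :=
      ((hGf i).sub_const _).mul_const _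
    simp only [div_eq_mul_inv]
    exact h1
  have k5 : ∀ z ∈ ball (0 : V m) 1, ‖(Gf i z - v) / (R : ℂ)‖ ≤ 1 := by
    intro z hz
    rw [norm_div, hRn, div_le_one hR0]
    have h1 := hGb i z hz
    have h2 := norm_sub_le (Gf i z) v
    linarith
  have k6 : ∀ z ∈ ball (0 : V m) 1, δ ≤ ∑ k, ‖(e.symm k).elim (fun w : ℂ => (1 - w) / 2)
      (fun l w => (f i l w - u l) / 2) ((e.symm k).elim (fun z => (inner ℂ q z : ℂ))
        (fun l => ψ i l) z)‖ + ‖(Gf i z - v) / (R : ℂ)‖ := by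
    intro z hz
    refine (hlow i hi z hz).trans (le_of_eq ?_)
    congr 1
    rw [← Equiv.sum_comp e]
    simp only [Equiv.symm_apply_apply, Fintype.sum_option, Option.elim_none, Option.elim_some]
    rw [add_comm]
    congr 1
    exact Finset.sum_congr rfl fun l _ => by rw [hgf i l z hz]
  obtain ⟨s, s0, hs1, hs2, hs3, hs4, hs5⟩ := H (V m)
    (fun k => (e.symm k).elim (fun z => (inner ℂ q z : ℂ)) (fun l => ψ i l))
    (fun k => (e.symm k).elim (fun w => (1 - w) / 2) (fun l w => (f i l w - u l) / 2)) k1 k2 k3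
    (fun z => (Gf i z - v) / R) k4 k5 k6
  refine ⟨fun o => Sum.elim (fun l => s (e (some l))) (Sum.elim (fun _ => s (e none))
      (fun _ => s0)) o, ?_, ?_, ?_⟩
  · rintro (l | o | o)
    · exact hs1 _
    · exact hs1 _
    · exact hs2
  · rintro (l | o | o) z hz
    · exact hs3 _ z hz
    · exact hs3 _ z hz
    · exact hs4 z hz
  · intro z hz
    have h1 := hs5 z hz
    rw [← Equiv.sum_comp e] at h1
    simp only [Equiv.symm_apply_apply, Fintype.sum_option, Option.elim_none, Option.elim_some]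
      at h1
    rw [Fintype.sum_sum_type, Fintype.sum_sum_type]
    simp only [Sum.elim_inl, Sum.elim_inr, Finset.univ_unique, Finset.sum_singleton]
    change ∑ l, F i (Sum.inl l) z * s (e (some l)) z +
      (F i (Sum.inr (Sum.inl ())) z * s (e none) z + F i (Sum.inr (Sum.inr ())) z * s0 z) = 1
    rw [hF2, hF3, ← h1]
    have h2 : ∀ l, F i (Sum.inl l) z * s (e (some l)) z =
        (f i l (ψ i l z) - u l) / 2 * s (e (some l)) z := by
      intro l
      rw [hF1, hgf i l z hz]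
    rw [Finset.sum_congr rfl fun l _ => h2 l]
    unfold Lo
    ring

end Pool.Agent.U598.Cor
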