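import Mathlib
import Pool.Agent.U598.Cor.Vals

/-!
Maps with affine fibres are invariant under the automorphisms `mv p a` of the ball.
-/

set_option autoImplicit false

open Metric Set Filter Topology

namespace Pool.Agent.U598.Cor

open Pool.Agent.TH310.Cor
open Pool.Agent.W732.Cor (mv S_mv)
open Pool.Agent.Y263.GF (AD AF)

variable {m : ℕ}

theorem den_ne {p : V m} (hp : ‖p‖ = 1) {a : ℂ} (ha : a ∈ ball (0 : ℂ) 1) {z : V m}
    (hz : z ∈ ball (0 : V m) 1) : 1 + starRingEnd ℂ a * inner ℂ p z ≠ 0 := by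
  intro h
  have h1 : ‖starRingEnd ℂ a * inner ℂ p z‖ < 1 := by
    rw [norm_mul, RCLike.norm_conj]
    rw [mem_ball_zero_iff] at ha hz
    have h2 := norm_inner_le_norm (𝕜 := ℂ) p z
    rw [hp, one_mul] at h2
    have h3 := norm_nonneg a
    have h4 := norm_nonneg (inner ℂ p z : ℂ)
    nlinarith
  have h2 : starRingEnd ℂ a * inner ℂ p z = -1 := by linear_combination h
  rw [h2, norm_neg, norm_one] at h1
  exact lt_irrefl _ h1

/-- differences of values of `mv p a` are multiples of the derivative -/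
theorem mv_sub {p : V m} (hp : ‖p‖ = 1) {a : ℂ} (ha : a ∈ ball (0 : ℂ) 1) {z z' : V m}
    (hz : z ∈ ball (0 : V m) 1) (hz' : z' ∈ ball (0 : V m) 1) :
    mv p a z' - mv p a z = ((1 + starRingEnd ℂ a * inner ℂ p z) /
      (1 + starRingEnd ℂ a * inner ℂ p z')) • fderiv ℂ (mv p a) z (z' - z) := by
  have hD := den_ne hp ha hz
  have hD' := den_ne hp ha hz'
  set L : V m → V m := fun z => ((inner ℂ p z : ℂ) + a) • p +
    ((√(1 - ‖a‖ ^ 2) : ℝ) : ℂ) • (z - (inner ℂ p z : ℂ) • p) with hL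
  set L' : V m →L[ℂ] V m := (innerSL ℂ p : V m →L[ℂ] ℂ).smulRight p +
    ((√(1 - ‖a‖ ^ 2) : ℝ) : ℂ) • (ContinuousLinearMap.id ℂ (V m) -
      (innerSL ℂ p : V m →L[ℂ] ℂ).smulRight p) with hL'
  have hin : HasFDerivAt (fun z : V m => (inner ℂ p z : ℂ)) (innerSL ℂ p : V m →L[ℂ] ℂ) z :=
    (innerSL ℂ p : V m →L[ℂ] ℂ).hasFDerivAt
  have hLd : HasFDerivAt L L' z := by
    have h1 : HasFDerivAt (fun z : V m => ((inner ℂ p z : ℂ) + a) • p)
        ((innerSL ℂ p : V m →L[ℂ] ℂ).smulRight p) z := (hin.add_const a).smul_const p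
    have h2 : HasFDerivAt (fun z : V m => z - (inner ℂ p z : ℂ) • p)
        (ContinuousLinearMap.id ℂ (V m) - (innerSL ℂ p : V m →L[ℂ] ℂ).smulRight p) z :=
      (hasFDerivAt_id z).sub (hin.smul_const p)
    exact h1.fun_add (h2.fun_const_smul _)
  have hDd : HasFDerivAt (fun z : V m => 1 / (1 + starRingEnd ℂ a * inner ℂ p z))
      (-(((1 + starRingEnd ℂ a * inner ℂ p z) ^ 2)⁻¹ • (starRingEnd ℂ a • (innerSL ℂ p : V m →L[ℂ] ℂ)))) z := by
    have h1 : HasFDerivAt (fun z : V m => 1 + starRingEnd ℂ a * inner ℂ p z)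
        (starRingEnd ℂ a • (innerSL ℂ p : V m →L[ℂ] ℂ)) z := (hin.const_mul _).const_add 1
    have h2 := (hasDerivAt_inv hD).comp_hasFDerivAt z h1
    have h3 : HasFDerivAt (fun z : V m => (1 + starRingEnd ℂ a * inner ℂ p z)⁻¹)
        (-((1 + starRingEnd ℂ a * inner ℂ p z) ^ 2)⁻¹ •
          (starRingEnd ℂ a • (innerSL ℂ p : V m →L[ℂ] ℂ))) z := h2
    have h4 : (-((1 + starRingEnd ℂ a * inner ℂ p z) ^ 2)⁻¹ •
          (starRingEnd ℂ a • (innerSL ℂ p : V m →L[ℂ] ℂ))) =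
        (-(((1 + starRingEnd ℂ a * inner ℂ p z) ^ 2)⁻¹ • (starRingEnd ℂ a • (innerSL ℂ p : V m →L[ℂ] ℂ)))) := by
      ext v
      simp
    rw [h4] at h3
    simp only [one_div]
    exact h3
  have hm : HasFDerivAt (mv p a) ((1 / (1 + starRingEnd ℂ a * inner ℂ p z)) • L' +
      (-(((1 + starRingEnd ℂ a * inner ℂ p z) ^ 2)⁻¹ • (starRingEnd ℂ a •
        (innerSL ℂ p : V m →L[ℂ] ℂ)))).smulRight (L z)) z := hDd.smul hLd
  rw [hm.fderiv]
  have hLs : L' (z' - z) = L z' - L z := by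
    rw [hL, hL']
    simp only [add_apply, smul_apply, ContinuousLinearMap.smulRight_apply, innerSL_apply_apply,
      inner_sub_right, sub_apply, ContinuousLinearMap.id_apply]
    module
  have h1 : mv p a z' - mv p a z = (1 / (1 + starRingEnd ℂ a * inner ℂ p z')) • L z' -
      (1 / (1 + starRingEnd ℂ a * inner ℂ p z)) • L z := rfl
  rw [h1]
  simp only [add_apply, smul_apply, ContinuousLinearMap.smulRight_apply, neg_apply,
    innerSL_apply_apply, inner_sub_right, hLs, smul_eq_mul]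
  obtain ⟨d, hd⟩ : ∃ d : ℂ, d = 1 + starRingEnd ℂ a * inner ℂ p z := ⟨_, rfl⟩
  obtain ⟨d', hd'⟩ : ∃ d' : ℂ, d' = 1 + starRingEnd ℂ a * inner ℂ p z' := ⟨_, rfl⟩
  have hdd : starRingEnd ℂ a * ((inner ℂ p z' : ℂ) - inner ℂ p z) = d' - d := by
    rw [hd, hd']; ring
  rw [← hd] at hD
  rw [← hd'] at hD'
  rw [hdd, ← hd, ← hd']
  generalize L z = u
  generalize L z' = u'
  rw [smul_add, smul_smul, smul_smul]
  have e1 : d / d' * (1 / d) = 1 / d' := by field_simp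
  have e2 : d / d' * -((d ^ 2)⁻¹ * (d' - d)) = 1 / d' - 1 / d := by field_simp; ring
  rw [e1, e2]
  module

/-- composition with an automorphism -/
theorem AD_comp_mv (hmv : S_mv) {ψ : V m → ℂ} (hψ : AD ψ) {p : V m} (hp : ‖p‖ = 1) {a : ℂ}
    (ha : a ∈ ball (0 : ℂ) 1) : AD (fun z => ψ (mv p a z)) := by
  have A := aut_mv hmv hp ha
  refine ⟨⟨hψ.1.1.comp A.d1 A.m1, fun z hz z' hz' => ?_⟩, fun z hz => hψ.2 _ (A.m1 hz)⟩
  have h1 := hψ.1.2 (mv p a z) (A.m1 hz) (mv p a z') (A.m1 hz')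
  have h2 : fderiv ℂ (fun z => ψ (mv p a z)) z = (fderiv ℂ ψ (mv p a z)).comp
      (fderiv ℂ (mv p a) z) := by
    refine fderiv_comp z ?_ ?_
    · exact (hψ.1.1).differentiableAt (isOpen_ball.mem_nhds (A.m1 hz))
    · exact A.d1.differentiableAt (isOpen_ball.mem_nhds hz)
  rw [h2, ContinuousLinearMap.comp_apply]
  rw [mv_sub hp ha hz hz', map_smul, smul_eq_zero] at h1
  have h3 : (1 + starRingEnd ℂ a * inner ℂ p z) / (1 + starRingEnd ℂ a * inner ℂ p z') ≠ 0 :=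
    div_ne_zero (den_ne hp ha hz) (den_ne hp ha hz')
  rw [h1]
  constructor
  · rintro (h | h)
    · exact absurd h h3
    · exact h
  · exact fun h => Or.inr h

theorem SFn.comp_mv (hmv : S_mv) {g : V m → ℂ} (hg : SFn g) {p : V m} (hp : ‖p‖ = 1) {a : ℂ}
    (ha : a ∈ ball (0 : ℂ) 1) : SFn (fun z => g (mv p a z)) := by
  obtain ⟨f, ψ, hf, hfb, hψ, hgf⟩ := hg
  exact ⟨f, fun z => ψ (mv p a z), hf, hfb, AD_comp_mv hmv hψ hp ha,
    fun z hz => hgf _ ((aut_mv hmv hp ha).m1 hz)⟩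

end Pool.Agent.U598.Cor
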