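import Mathlib
import Pool.Agent.U598.Cor.Vals

/-!
Corona data on the ball which near a boundary point are polynomials, with bounded coefficients, in
one arbitrary bounded holomorphic function and finitely many functions with affine fibres: uniform
local solutions.
-/

set_option autoImplicit false

open Metric Set Filter Topology WeakDual

namespace Pool.Agent.U598.Cor

open Pool.Agent.TH310.Cor
open Pool.Agent.H326R3.CB (Bt)

variable {m : ℕ}

/-- polynomials with exponents `e₀`, `e` -/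
def Ev {κ Λ : Type} [Fintype κ] [Fintype Λ] (e₀ : κ → ℕ) (e : κ → Λ → ℕ) (c : κ → ℂ) (w : ℂ)
    (y : Λ → ℂ) : ℂ := ∑ x, c x * (w ^ e₀ x * ∏ l, y l ^ e x l)

theorem Ev_uc {κ Λ : Type} [Fintype κ] [Fintype Λ] (e₀ : κ → ℕ) (e : κ → Λ → ℕ) (K M s : ℝ)
    (hs : 0 < s) : ∃ η : ℝ, 0 < η ∧
    ∀ (c c' : κ → ℂ) (w w' : ℂ) (y y' : Λ → ℂ), (∀ k, ‖c k‖ ≤ K) → (∀ k, ‖c' k‖ ≤ K) →
      ‖w‖ ≤ M → ‖w'‖ ≤ M → (∀ l, ‖y l‖ ≤ 1) → (∀ l, ‖y' l‖ ≤ 1) →
      (∀ k, ‖c k - c' k‖ ≤ η) → ‖w - w'‖ ≤ η → (∀ l, ‖y l - y' l‖ ≤ η) →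
      ‖Ev e₀ e c w y - Ev e₀ e c' w' y'‖ ≤ s := by
  have hcont : Continuous (fun x : (κ → ℂ) × (ℂ × (Λ → ℂ)) => Ev e₀ e x.1 x.2.1 x.2.2) := by
    unfold Ev
    fun_prop
  have hcpt : IsCompact ((closedBall (0 : κ → ℂ) (max K 0)) ×ˢ
      ((closedBall (0 : ℂ) M) ×ˢ (closedBall (0 : Λ → ℂ) 1))) :=
    (ProperSpace.isCompact_closedBall _ _).prod
      ((ProperSpace.isCompact_closedBall _ _).prod (ProperSpace.isCompact_closedBall _ _))
  have huc := hcpt.uniformContinuousOn_of_continuous hcont.continuousOn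
  rw [Metric.uniformContinuousOn_iff] at huc
  obtain ⟨η, hη, h⟩ := huc s hs
  refine ⟨η / 2, by positivity, fun c c' w w' y y' hc hc' hw hw' hy hy' hcc hww hyy => ?_⟩
  have h0 : (0 : ℝ) ≤ max K 0 := le_max_right _ _
  have hm : ∀ (c : κ → ℂ) (w : ℂ) (y : Λ → ℂ), (∀ k, ‖c k‖ ≤ K) → ‖w‖ ≤ M → (∀ l, ‖y l‖ ≤ 1) →
      (c, (w, y)) ∈ ((closedBall (0 : κ → ℂ) (max K 0)) ×ˢ
      ((closedBall (0 : ℂ) M) ×ˢ (closedBall (0 : Λ → ℂ) 1))) := by
    intro c w y hc hw hy
    refine ⟨?_, ?_, ?_⟩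
    · rw [mem_closedBall_zero_iff, pi_norm_le_iff_of_nonneg h0]
      exact fun k => (hc k).trans (le_max_left _ _)
    · simpa using hw
    · rw [mem_closedBall_zero_iff, pi_norm_le_iff_of_nonneg zero_le_one]
      exact hy
  have h3 : dist (c, (w, y)) (c', (w', y')) < η := by
    rw [Prod.dist_eq, Prod.dist_eq]
    refine max_lt ?_ (max_lt ?_ ?_)
    · refine lt_of_le_of_lt ((dist_pi_le_iff (by positivity)).2 fun k => ?_) (half_lt_self hη)
      rw [dist_eq_norm]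
      exact hcc k
    · change dist w w' < η
      rw [dist_eq_norm]
      linarith
    · refine lt_of_le_of_lt ((dist_pi_le_iff (by positivity)).2 fun k => ?_) (half_lt_self hη)
      rw [dist_eq_norm]
      exact hyy k
  have h4 := h _ (hm c w y hc hw hy) _ (hm c' w' y' hc' hw' hy') h3
  rw [dist_eq_norm] at h4
  exact h4.le

/-- **Polynomials in one arbitrary function and functions with affine fibres near a boundary
point.** -/
theorem near_ev {q : V m} (hq : ‖q‖ = 1) {I : Type} {N : ℕ} {κ Λ : Type} [Fintype κ] [Fintype Λ]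
    (e₀ : κ → ℕ) (e : κ → Λ → ℕ) {F : I → Fin N → V m → ℂ}
    (hF : ∀ i j, HB (F i j)) {ρ K δ ε₀ : ℝ} (hρ : 0 < ρ) (hδ : 2 * N * ε₀ < δ) (hε₀ : 0 ≤ ε₀)
    (G : I → V m → ℂ) (hG : ∀ i, DifferentiableOn ℂ (G i) (ball 0 1 ∩ ball q ρ))
    (hGb : ∀ i, ∀ z ∈ ball (0 : V m) 1 ∩ ball q ρ, ‖G i z‖ ≤ 1)
    (g : I → Λ → V m → ℂ) (hg : ∀ i l, SFn (g i l)) (P : I → Fin N → κ → ℂ)
    (hP : ∀ i j k, ‖P i j k‖ ≤ K)
    (hlow : ∀ i, ∀ z ∈ ball (0 : V m) 1 ∩ ball q ρ, δ ≤ ∑ j, ‖F i j z‖)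
    (happ : ∀ i j, ∀ z ∈ ball (0 : V m) 1 ∩ ball q ρ,
      ‖F i j z - Ev e₀ e (P i j) (G i z) (fun l => g i l z)‖ ≤ ε₀) : SolvL F q := by
  classical
  refine solvL_of_Lo hq ?_
  by_contra hns
  let tI : TopologicalSpace I := ⊥
  have dI : DiscreteTopology I := ⟨rfl⟩
  have hF2 : ∀ i (o : Fin N ⊕ Unit),
      HB (fun z : V m => o.elim (fun j => F i j z) (fun _ => Lo q z)) := by
    intro i o
    rcases o with o | o
    · exact hF i o
    · exact HB_Lo hq
  obtain ⟨χ, hχ⟩ := exists_zero hF2 hns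
  have hpt : pt χ = q := pt_of_Lo χ hq (hχ (Sum.inr ()))
  have hχF : ∀ j, χ (El (f := fun i => F i j) (fun i => hF i j)) = 0 := fun j => hχ (Sum.inl j)
  have hlt : ∀ z : V m, ‖(inner ℂ q (z : V m) : ℂ) - 1‖ ≤ ‖(z : V m) - q‖ := by
    intro z
    have h3 : (inner ℂ q (z : V m) : ℂ) - 1 = inner ℂ q ((z : V m) - q) := by
      rw [inner_sub_right, inner_self_eq_norm_sq_to_K, hq]
      norm_num
    rw [h3]
    refine (norm_inner_le_norm _ _).trans ?_
    rw [hq, one_mul]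
  -- extension of `G`
  obtain ⟨Kg, r, hKg, hr, hlg⟩ := lgV (η := ρ ^ 2 / 2) (by positivity)
  have hsub : ∀ z ∈ ball (0 : V m) 1, ‖(inner ℂ q z : ℂ) - 1‖ < ρ ^ 2 / 2 →
      z ∈ ball (0 : V m) 1 ∩ ball q ρ := by
    intro z hz hzq
    refine ⟨hz, ?_⟩
    rw [mem_ball, dist_eq_norm]
    by_contra hcon
    push Not at hcon
    have h3 := one_sub_inner hq (by rw [mem_ball_zero_iff] at hz; exact hz.le) hρ.le hcon
    rw [norm_sub_rev] at h3
    linarith
  have hG' : ∀ i, ∃ U : V m → ℂ, DifferentiableOn ℂ U (ball 0 1) ∧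
      (∀ z ∈ ball (0 : V m) 1, ‖U z‖ ≤ Kg) ∧ ∀ ε, 0 < ε → ∀ z ∈ ball (0 : V m) 1,
        ‖(inner ℂ q z : ℂ) - 1‖ < r ε → ‖U z - G i z‖ ≤ ε := by
    intro i
    refine hlg m q hq (G i) ((hG i).mono ?_) ?_
    · rintro z ⟨hz, hz2⟩
      exact hsub z hz hz2
    · exact fun z hz hz2 => hGb i z (hsub z hz hz2)
  choose G' hG1 hG2 hG3 using hG'
  obtain ⟨M, hM⟩ : ∃ M, M = max Kg 1 := ⟨_, rfl⟩
  have hMK : Kg ≤ M := by rw [hM]; exact le_max_left _ _
  have hM1 : 1 ≤ M := by rw [hM]; exact le_max_right _ _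
  obtain ⟨s, hs⟩ : ∃ s : ℝ, s = (δ - 2 * N * ε₀) / (4 * (N + 1)) := ⟨_, rfl⟩
  have hN0 : (0 : ℝ) ≤ N := Nat.cast_nonneg N
  have hs0 : 0 < s := by rw [hs]; exact div_pos (by linarith) (by positivity)
  have hs1 : 4 * (N + 1) * s = δ - 2 * N * ε₀ := by rw [hs]; field_simp
  obtain ⟨η, hη, huc⟩ := Ev_uc e₀ e K M s hs0
  -- values of the character
  obtain ⟨gg, hgg⟩ : ∃ gg : HI I m, gg = mk (f := G') hG1 hG2 := ⟨_, rfl⟩
  obtain ⟨v, hv⟩ : ∃ v, v = χ gg := ⟨_, rfl⟩
  obtain ⟨y, hy⟩ : ∃ y : Λ → ℂ,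
      y = fun l => χ (El (f := fun i => g i l) (fun i => (hg i l).HB)) := ⟨_, rfl⟩
  have hy1 : ∀ l, ‖y l‖ ≤ 1 := by
    intro l
    rw [hy]
    exact (char_le χ _).trans (norm_le zero_le_one fun x => (hg x.1 l).HB.2 x.2 x.2.2)
  have hgz : ∀ i (z : Bt m), gg.1 (i, z) = G' i z := fun i z => by rw [hgg]; rfl
  have hgn : ‖gg‖ ≤ Kg := norm_le hKg (fun x => by rw [hgg]; exact hG2 x.1 x.2 x.2.2)
  have hvM : ‖v‖ ≤ M := by rw [hv]; exact (char_le χ gg).trans (hgn.trans hMK)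
  obtain ⟨c, hc⟩ : ∃ c : Fin N → κ → ℂ,
      c = fun j k => χ (Ix m (c := fun i => P i j k) (C := K) (fun i => hP i j k)) := ⟨_, rfl⟩
  -- `I` is nonempty
  have hI : Nonempty I := by
    by_contra hI
    rw [not_nonempty_iff] at hI
    have h1 : (1 : HI I m) = 0 := by
      apply ext'
      rintro ⟨k, z⟩
      exact (hI.false k).elim
    have h2 := congrArg χ h1
    rw [map_one, map_zero] at h2
    exact one_ne_zero h2
  have hcK : ∀ j k, ‖c j k‖ ≤ K := by
    intro j k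
    have hK0 : 0 ≤ K := (norm_nonneg _).trans (hP (Classical.choice hI) j k)
    rw [hc]
    exact (char_le χ _).trans (norm_le hK0 (fun x => hP x.1 j k))
  have hrη := hr η hη
  obtain ⟨ρ', hρ'⟩ : ∃ ρ', ρ' = min ρ (r η) := ⟨_, rfl⟩
  have hρ'0 : 0 < ρ' := by rw [hρ']; exact lt_min hρ hrη
  have hmem : ∀ z : Bt m, ‖(z : V m) - q‖ < ρ' → (z : V m) ∈ ball (0 : V m) 1 ∩ ball q ρ := by
    intro z hz
    refine ⟨z.2, ?_⟩
    rw [mem_ball, dist_eq_norm]
    exact hz.trans_le (by rw [hρ']; exact min_le_left _ _)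
  have hGG : ∀ i (z : Bt m), ‖(z : V m) - q‖ < ρ' → ‖G' i z - G i z‖ ≤ η := by
    intro i z hz
    refine hG3 i η hη z z.2 (lt_of_le_of_lt (hlt z) (hz.trans_le ?_))
    rw [hρ']; exact min_le_right _ _
  have hgb : ∀ i l (z : Bt m), ‖g i l z‖ ≤ 1 := fun i l z => (hg i l).HB.2 z z.2
  have hfirst : ∀ i j (z : Bt m), ‖(z : V m) - q‖ < ρ' →
      ‖F i j z - Ev e₀ e (P i j) (G' i z) (fun l => g i l z)‖ ≤ ε₀ + s := by
    intro i j z hz
    have h1 := happ i j z (hmem z hz)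
    have h2 := huc (P i j) (P i j) (G i z) (G' i z) (fun l => g i l z) (fun l => g i l z)
      (hP i j) (hP i j)
      ((hGb i z (hmem z hz)).trans hM1) ((hG2 i z z.2).trans hMK) (fun l => hgb i l z)
      (fun l => hgb i l z) (fun k => by rw [sub_self, norm_zero]; exact hη.le)
      (by rw [norm_sub_rev]; exact hGG i z hz)
      (fun k => by rw [sub_self, norm_zero]; exact hη.le)
    calc ‖F i j z - Ev e₀ e (P i j) (G' i z) (fun l => g i l z)‖
        = ‖(F i j z - Ev e₀ e (P i j) (G i z) (fun l => g i l z)) +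
            (Ev e₀ e (P i j) (G i z) (fun l => g i l z) -
              Ev e₀ e (P i j) (G' i z) (fun l => g i l z))‖ := by congr 1; ring
      _ ≤ ε₀ + s := (norm_add_le _ _).trans (add_le_add h1 h2)
  have hval : ∀ j, ‖Ev e₀ e (c j) v y‖ ≤ ε₀ + s := by
    intro j
    have h1 : χ (El (f := fun i => F i j) (fun i => hF i j) -
        ∑ k, Ix m (c := fun i => P i j k) (C := K) (fun i => hP i j k) * (gg ^ e₀ k *
          ∏ l, El (f := fun i => g i l) (fun i => (hg i l).HB) ^ e k l)) =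
        - Ev e₀ e (c j) v y := by
      rw [map_sub, hχF, map_sum, zero_sub]
      unfold Ev
      congr 1
      refine Finset.sum_congr rfl fun k _ => ?_
      rw [map_mul, map_mul, map_pow, map_prod, hc, hv, hy]
      simp only [map_pow]
    rw [← norm_neg, ← h1]
    refine char_boundary χ (by rw [hpt]; exact hq) _ (ρ := ρ') hρ'0 (by positivity) univ
      (by rw [Id_univ, map_one]) ?_
    intro i _ z hz
    rw [hpt] at hz
    have hprod : ∀ k, (∏ l, El (f := fun i => g i l) (fun i => (hg i l).HB) ^ e k l :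
        HI I m).1 (i, z) = ∏ l, g i l z ^ e k l := by
      intro k
      have hgen : ∀ s : Finset Λ, (∏ l ∈ s, El (f := fun i => g i l) (fun i => (hg i l).HB) ^ e k l :
          HI I m).1 (i, z) = ∏ l ∈ s, g i l z ^ e k l := by
        intro s
        induction s using Finset.induction_on with
        | empty => rfl
        | insert a s ha ih =>
          rw [Finset.prod_insert ha, Finset.prod_insert ha, ← ih]
          have h4 : (El (f := fun i => g i a) (fun i => (hg i a).HB) ^ e k a : HI I m).1 (i, z) =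
              g i a z ^ e k a := by
            rw [pow_apply]; rfl
          rw [← h4]
          rfl
      exact hgen Finset.univ
    have h2 : (El (f := fun i => F i j) (fun i => hF i j) -
        ∑ k, Ix m (c := fun i => P i j k) (C := K) (fun i => hP i j k) * (gg ^ e₀ k *
          ∏ l, El (f := fun i => g i l) (fun i => (hg i l).HB) ^ e k l) :
          HI I m).1 (i, z) = F i j z - Ev e₀ e (P i j) (G' i z) (fun l => g i l z) := by
      have h3 : (El (f := fun i => F i j) (fun i => hF i j) -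
        ∑ k, Ix m (c := fun i => P i j k) (C := K) (fun i => hP i j k) * (gg ^ e₀ k *
          ∏ l, El (f := fun i => g i l) (fun i => (hg i l).HB) ^ e k l) :
          HI I m).1 (i, z) = F i j z - (∑ k, Ix m (c := fun i => P i j k) (C := K)
            (fun i => hP i j k) * (gg ^ e₀ k *
          ∏ l, El (f := fun i => g i l) (fun i => (hg i l).HB) ^ e k l) : HI I m).1 (i, z) := rfl
      rw [h3, TH310.Cor.sum_apply]
      unfold Ev
      congr 1
      refine Finset.sum_congr rfl fun k _ => ?_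
      change P i j k * ((gg ^ e₀ k).1 (i, z) * (∏ l, El (f := fun i => g i l)
        (fun i => (hg i l).HB) ^ e k l : HI I m).1 (i, z)) = _
      rw [pow_apply, hgz, hprod]
    rw [h2]
    exact hfirst i j z hz
  -- the set of indices
  obtain ⟨E, hE⟩ : ∃ E : Set I, E = {i | ∀ x : Fin N × κ,
      i ∈ {i | ‖P i x.1 x.2 - c x.1 x.2‖ ≤ η}} := ⟨_, rfl⟩
  have hEχ : χ (Id m E) = 1 := by
    rw [hE]
    refine char_inter χ _ ?_
    rintro ⟨j, k⟩
    have hb : ∀ i, ‖P i j k - c j k‖ ≤ K + K := fun i =>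
      (norm_sub_le _ _).trans (add_le_add (hP i j k) (hcK j k))
    have h1 : χ (Ix m hb) = 0 := by
      have h2 : Ix m hb = Ix m (c := fun i => P i j k) (C := K) (fun i => hP i j k) -
          Cc (c j k) := ext' fun x => rfl
      rw [h2, map_sub, char_Cc, hc, sub_self]
    exact char_small χ hb (ε := 0) (by rw [h1, norm_zero]) hη hη
  obtain ⟨i, hi, z, hz, hzv, hzy⟩ := vals_near χ hq hpt E hEχ gg g hg hη hρ'0
  rw [hgz, ← hv] at hzv
  rw [hE] at hi
  have hsmall : ∀ j, ‖F i j z‖ ≤ 2 * ε₀ + 3 * s := by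
    intro j
    have h1 := hfirst i j z hz
    have h2 := huc (P i j) (c j) (G' i z) v (fun l => g i l z) y (hP i j) (hcK j)
      ((hG2 i z z.2).trans hMK) hvM (fun l => hgb i l z) hy1
      (fun k => hi (j, k)) hzv (fun l => by rw [hy]; exact hzy l)
    have h3 := hval j
    calc ‖F i j z‖ = ‖(F i j z - Ev e₀ e (P i j) (G' i z) (fun l => g i l z)) +
          ((Ev e₀ e (P i j) (G' i z) (fun l => g i l z) - Ev e₀ e (c j) v y) +
            Ev e₀ e (c j) v y)‖ := by congr 1; ring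
      _ ≤ (ε₀ + s) + (s + (ε₀ + s)) :=
        (norm_add_le _ _).trans (add_le_add h1 ((norm_add_le _ _).trans (add_le_add h2 h3)))
      _ = 2 * ε₀ + 3 * s := by ring
  have h1 := hlow i z (hmem z hz)
  have h2 : ∑ j, ‖F i j z‖ ≤ N * (2 * ε₀ + 3 * s) := by
    refine (Finset.sum_le_sum fun j _ => hsmall j).trans (le_of_eq ?_)
    rw [Finset.sum_const, Finset.card_univ, Fintype.card_fin, nsmul_eq_mul]
  nlinarith

/-- the same after a selection of functions depending on the index -/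
theorem case_ev {q : V m} (hq : ‖q‖ = 1) {I : Type} {N : ℕ} {κ Λ : Type} [Fintype κ] [Fintype Λ]
    (e₀ : κ → ℕ) (e : κ → Λ → ℕ) {F : I → Fin N → V m → ℂ}
    (hF : ∀ i j, HB (F i j)) {ρ K δ ε₀ : ℝ} (hρ : 0 < ρ) (hδ : 2 * N * ε₀ < δ) (hε₀ : 0 ≤ ε₀)
    (h : ∀ i, ∃ (S : Finset (Fin N)) (G : V m → ℂ) (g : Λ → V m → ℂ) (P : Fin N → κ → ℂ),
      DifferentiableOn ℂ G (ball 0 1 ∩ ball q ρ) ∧
      (∀ z ∈ ball (0 : V m) 1 ∩ ball q ρ, ‖G z‖ ≤ 1) ∧ (∀ l, SFn (g l)) ∧
      (∀ j k, ‖P j k‖ ≤ K) ∧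
      ∀ z ∈ ball (0 : V m) 1 ∩ ball q ρ, δ ≤ ∑ j ∈ S, ‖F i j z‖ ∧
        ∀ j ∈ S, ‖F i j z - Ev e₀ e (P j) (G z) (fun l => g l z)‖ ≤ ε₀) : SolvL F q := by
  classical
  choose S G g P hG hGb hg hP hmain using h
  obtain ⟨F', hF'⟩ : ∃ F' : I → Fin N → V m → ℂ,
      F' = fun i j z => if j ∈ S i then F i j z else 0 := ⟨_, rfl⟩
  have hF'1 : ∀ i j, j ∈ S i → F' i j = F i j := by
    intro i j hj
    rw [hF']
    funext z
    simp only [if_pos hj]
  have hF'0 : ∀ i j, j ∉ S i → F' i j = fun _ => 0 := by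
    intro i j hj
    rw [hF']
    funext z
    simp only [if_neg hj]
  have hsum : ∀ i z, ∑ j, ‖F' i j z‖ = ∑ j ∈ S i, ‖F i j z‖ := by
    intro i z
    rw [← Finset.sum_subset (Finset.subset_univ (S i))]
    · exact Finset.sum_congr rfl fun j hj => by rw [hF'1 i j hj]
    · intro j _ hj
      rw [hF'0 i j hj, norm_zero]
  have key : SolvL F' q := by
    refine near_ev (K := max K 0) hq e₀ e ?_ hρ hδ hε₀ G hG hGb g hg
      (fun i j k => if j ∈ S i then P i j k else 0) ?_ ?_ ?_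
    · intro i j
      by_cases hj : j ∈ S i
      · rw [hF'1 i j hj]; exact hF i j
      · rw [hF'0 i j hj]
        exact ⟨differentiableOn_const _, fun z _ => by rw [norm_zero]; exact zero_le_one⟩
    · intro i j k
      by_cases hj : j ∈ S i
      · simp only [if_pos hj]
        exact (hP i j k).trans (le_max_left _ _)
      · simp only [if_neg hj, norm_zero]
        exact le_max_right _ _
    · intro i z hz
      rw [hsum]
      exact (hmain i z hz).1
    · intro i j z hz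
      by_cases hj : j ∈ S i
      · simp only [if_pos hj]
        rw [hF'1 i j hj]
        exact (hmain i z hz).2 j hj
      · simp only [if_neg hj]
        rw [hF'0 i j hj]
        simpa [Ev] using hε₀
  obtain ⟨C, ρ', hρ', hgs⟩ := key
  refine ⟨max C 0, ρ', hρ', fun i => ?_⟩
  obtain ⟨g, h1, h2, h3⟩ := hgs i
  refine ⟨fun j z => if j ∈ S i then g j z else 0, fun j => ?_, fun j z hz => ?_, fun z hz => ?_⟩
  · by_cases hj : j ∈ S i
    · simp only [if_pos hj]; exact h1 j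
    · simp only [if_neg hj]; exact differentiableOn_const _
  · by_cases hj : j ∈ S i
    · simp only [if_pos hj]; exact (h2 j z hz).trans (le_max_left _ _)
    · simp only [if_neg hj, norm_zero]; exact le_max_right _ _
  · rw [← h3 z hz]
    refine Finset.sum_congr rfl fun j _ => ?_
    by_cases hj : j ∈ S i
    · simp only [if_pos hj]
      rw [hF'1 i j hj]
    · simp only [if_neg hj]
      rw [hF'0 i j hj, mul_zero, zero_mul]

end Pool.Agent.U598.Cor
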