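import Mathlib
import Pool.Agent.U598.Cor.PolyG
import Pool.Agent.U598.Cor.Comp
import Pool.Agent.W732.Cor.All

/-!
The closed algebra generated by asymptotically scaled continuous functions, functions with affine
fibres and one arbitrary function.
-/

set_option autoImplicit false

open Metric Set Filter Topology

namespace Pool.Agent.U598.Cor

open Pool.Agent.TH310.Cor
open Pool.Agent.W732.Cor (mv S_mv S_ball AS SC t_mv t_ball t_sc1 t_sc2 t_sc3)

variable {m : ℕ}

/-- elements of the algebra generated by `G`, `T` and `S` as polynomials -/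
theorem adjoin_poly (T S : Set (V m → ℂ)) (G f : V m → ℂ)
    (hf : f ∈ Algebra.adjoin ℂ (insert G (T ∪ S))) :
    ∃ P : MvPolynomial (Option S) (Algebra.adjoin ℂ T),
      f = MvPolynomial.aeval (fun o : Option S => o.elim G (fun s => s.1)) P := by
  induction hf using Algebra.adjoin_induction with
  | mem f hf =>
    rcases hf with hf | hf | hf
    · exact ⟨MvPolynomial.X none, by rw [MvPolynomial.aeval_X]; exact hf⟩
    · refine ⟨MvPolynomial.C ⟨f, Algebra.subset_adjoin hf⟩, ?_⟩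
      rw [MvPolynomial.aeval_C]; rfl
    · exact ⟨MvPolynomial.X (some ⟨f, hf⟩), by rw [MvPolynomial.aeval_X]; rfl⟩
  | algebraMap c =>
    refine ⟨MvPolynomial.C (algebraMap ℂ (Algebra.adjoin ℂ T) c), ?_⟩
    rw [MvPolynomial.aeval_C]; rfl
  | add f g _ _ hf hg =>
    obtain ⟨P, hP⟩ := hf
    obtain ⟨Q, hQ⟩ := hg
    exact ⟨P + Q, by rw [map_add, hP, hQ]⟩
  | mul f g _ _ hf hg =>
    obtain ⟨P, hP⟩ := hf
    obtain ⟨Q, hQ⟩ := hg
    exact ⟨P * Q, by rw [map_mul, hP, hQ]⟩

/-- finitely many elements of the algebra as polynomials with common exponents -/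
theorem adjoin_rep {N : ℕ} (T S : Set (V m → ℂ)) (G : V m → ℂ) (f : Fin N → V m → ℂ)
    (hf : ∀ j, f j ∈ Algebra.adjoin ℂ (insert G (T ∪ S))) :
    ∃ (κ Λ : Type) (_ : Fintype κ) (_ : Fintype Λ) (e₀ : κ → ℕ) (e : κ → Λ → ℕ) (g : Λ → V m → ℂ)
      (a : Fin N → κ → V m → ℂ), (∀ l, g l ∈ S) ∧ (∀ j k, a j k ∈ Algebra.adjoin ℂ T) ∧
      ∀ j z, f j z = Ev e₀ e (fun k => a j k z) (G z) (fun l => g l z) := by
  classical
  choose P hP using fun j => adjoin_poly T S G (f j) (hf j)
  obtain ⟨W, hW⟩ : ∃ W : Finset (Option S), W = Finset.univ.biUnion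
    (fun j => (P j).support.biUnion (fun s => s.support)) := ⟨_, rfl⟩
  have hsub : ∀ j, ∀ s ∈ (P j).support, s.support ⊆ W := by
    intro j s hs
    rw [hW]
    exact (Finset.subset_biUnion_of_mem (fun s : Option S →₀ ℕ => s.support) hs).trans
      (Finset.subset_biUnion_of_mem (fun j => (P j).support.biUnion (fun s => s.support))
        (Finset.mem_univ j))
  -- the values
  have hval : ∀ j z, f j z = ∑ s ∈ (P j).support, (((P j).coeff s : Algebra.adjoin ℂ T) : V m → ℂ) z *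
      (G z ^ s none * ∏ l : (Finset.eraseNone W), (l.1 : V m → ℂ) z ^ s (some l.1)) := by
    intro j z
    rw [hP j, MvPolynomial.aeval_def, MvPolynomial.eval₂_eq, Finset.sum_apply]
    refine Finset.sum_congr rfl fun s hs => ?_
    have h1 : (algebraMap (Algebra.adjoin ℂ T) (V m → ℂ)) ((P j).coeff s) =
        (((P j).coeff s : Algebra.adjoin ℂ T) : V m → ℂ) := rfl
    rw [h1, Pi.mul_apply]
    congr 1
    rw [Finset.prod_apply]
    have h2 : s.support ⊆ Finset.insertNone (Finset.eraseNone W) := by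
      rw [Finset.insertNone_eraseNone]
      exact (hsub j s hs).trans (Finset.subset_insert _ _)
    rw [Finset.prod_subset h2]
    · rw [Finset.prod_insertNone]
      congr 1
      rw [Finset.prod_coe_sort (Finset.eraseNone W) (fun l => (l : V m → ℂ) z ^ s (some l))]
      rfl
    · intro o _ ho
      rw [Finsupp.notMem_support_iff] at ho
      rw [ho]
      simp
  refine ⟨Σ j : Fin N, (P j).support, (Finset.eraseNone W), inferInstance, inferInstance,
    fun x => x.2.1 none, fun x l => x.2.1 (some l.1), fun l => l.1.1,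
    fun j x => if x.1 = j then (((P x.1).coeff x.2.1 : Algebra.adjoin ℂ T) : V m → ℂ) else 0, fun l => l.1.2, ?_, ?_⟩
  · intro j x
    by_cases h : x.1 = j
    · simp only [if_pos h]
      exact ((P x.1).coeff x.2.1).2
    · simp only [if_neg h]
      exact zero_mem _
  · intro j z
    unfold Ev
    rw [hval j z, Fintype.sum_sigma, Finset.sum_eq_single j]
    · rw [← Finset.sum_coe_sort]
      refine Finset.sum_congr rfl fun s _ => ?_
      simp
    · intro i _ hi
      refine Finset.sum_eq_zero fun s _ => ?_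
      simp [hi]
    · intro h
      exact absurd (Finset.mem_univ j) h

/-- **Corona theorem for the closed algebra.** -/
theorem alg_cor2 (N : ℕ) (G : V m → ℂ) (hG : DifferentiableOn ℂ G (ball 0 1))
    (hGb : ∃ M : ℝ, ∀ z ∈ ball (0 : V m) 1, ‖G z‖ ≤ M) (f : Fin N → V m → ℂ)
    (hfd : ∀ j, DifferentiableOn ℂ (f j) (ball 0 1))
    (hf : ∀ j, ∀ ε : ℝ, 0 < ε → ∃ h ∈ Algebra.adjoin ℂ (insert G ({h : V m → ℂ | AS h} ∪ {h | SFn h})),
      ∀ z ∈ ball (0 : V m) 1, ‖f j z - h z‖ ≤ ε)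
    (δ : ℝ) (hδ : 0 < δ) (hc : ∀ z ∈ ball (0 : V m) 1, δ ≤ ∑ j, ‖f j z‖) :
    ∃ g : Fin N → V m → ℂ, (∀ j, DifferentiableOn ℂ (g j) (ball 0 1)) ∧
      (∃ C : ℝ, ∀ j, ∀ z ∈ ball (0 : V m) 1, ‖g j z‖ ≤ C) ∧
      ∀ z ∈ ball (0 : V m) 1, ∑ j, f j z * g j z = 1 := by
  classical
  -- the algebra of asymptotically scaled continuous functions
  have hAS : ∀ a ∈ Algebra.adjoin ℂ {h : V m → ℂ | AS h}, AS a := by
    intro a ha
    induction ha using Algebra.adjoin_induction with
    | mem f hf => exact hf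
    | algebraMap c => exact Pool.Agent.W732.Cor.AS.const t_sc3 t_sc1 c
    | add f g _ _ hf hg => exact hf.add t_sc3 hg
    | mul f g _ _ hf hg => exact hf.mul t_sc3 hg
  -- bound of the elements
  obtain ⟨MG0, hMG0⟩ := hGb
  obtain ⟨MG, hMG⟩ : ∃ MG, MG = max MG0 1 := ⟨_, rfl⟩
  have hMG1 : 1 ≤ MG := by rw [hMG]; exact le_max_right _ _
  have hGM : ∀ z ∈ ball (0 : V m) 1, ‖G z‖ ≤ MG := fun z hz =>
    (hMG0 z hz).trans (by rw [hMG]; exact le_max_left _ _)
  have hbd : ∀ j, ∃ M : ℝ, ∀ z ∈ ball (0 : V m) 1, ‖f j z‖ ≤ M := by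
    intro j
    obtain ⟨h, hh, hfh⟩ := hf j 1 one_pos
    obtain ⟨κ, Λ, iκ, iΛ, e₀, e, g, a, hg, ha, hr⟩ := adjoin_rep (N := 1) _ _ G (fun _ => h)
      (fun _ => hh)
    choose B hB using fun k => (hAS _ (ha 0 k)).2.1
    refine ⟨1 + ∑ k, |B k| * MG ^ e₀ k, fun z hz => ?_⟩
    have h1 := hfh z hz
    have h2 : ‖h z‖ ≤ ∑ k, |B k| * MG ^ e₀ k := by
      rw [hr 0 z]
      unfold Ev
      refine (norm_sum_le _ _).trans (Finset.sum_le_sum fun k _ => ?_)
      rw [norm_mul, norm_mul, norm_pow, norm_prod]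
      have h3 := (hB k z hz).trans (le_abs_self _)
      have h4 := hGM z hz
      have h5 : ∏ l, ‖g l z ^ e k l‖ ≤ 1 := Finset.prod_le_one (fun l _ => norm_nonneg _)
        (fun l _ => by
          rw [norm_pow]
          exact pow_le_one₀ (norm_nonneg _) ((hg l).HB.2 z hz))
      calc ‖a 0 k z‖ * (‖G z‖ ^ e₀ k * ∏ l, ‖g l z ^ e k l‖) ≤ |B k| * (MG ^ e₀ k * 1) := by
            gcongr
        _ = |B k| * MG ^ e₀ k := by ring
    have h3 := norm_sub_norm_le (f j z) (h z)
    linarith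
  choose M0 hM0 using hbd
  obtain ⟨M, hM⟩ : ∃ M : ℝ, M = 1 + ∑ j, |M0 j| := ⟨_, rfl⟩
  have hMs : 0 ≤ ∑ j, |M0 j| := Finset.sum_nonneg fun j _ => abs_nonneg _
  have hM1 : 1 ≤ M := by rw [hM]; linarith
  have hMp : 0 < M := by linarith
  have hfM : ∀ j, ∀ z ∈ ball (0 : V m) 1, ‖f j z‖ ≤ M := by
    intro j z hz
    have h1 := (hM0 j z hz).trans (le_abs_self _)
    have h2 := Finset.single_le_sum (f := fun j => |M0 j|) (fun j _ => abs_nonneg _)
      (Finset.mem_univ j)
    rw [hM]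
    linarith
  have hMn : ‖(M : ℂ)‖ = M := by rw [Complex.norm_real, Real.norm_of_nonneg hMp.le]
  have hMne : (M : ℂ) ≠ 0 := by exact_mod_cast hMp.ne'
  obtain ⟨F, hF⟩ : ∃ F : Unit → Fin N → V m → ℂ, F = fun _ j z => f j z / M := ⟨_, rfl⟩
  have hFz : ∀ u j z, F u j z = f j z / M := fun u j z => by rw [hF]
  have hFH : ∀ u j, HB (F u j) := by
    intro u j
    constructor
    · have h1 : DifferentiableOn ℂ (fun z => f j z * (M : ℂ)⁻¹) (ball 0 1) := (hfd j).mul_const _
      rw [hF]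
      simp only [div_eq_mul_inv]
      exact h1
    · intro z hz
      rw [hFz, norm_div, hMn, div_le_one hMp]
      exact hfM j z hz
  obtain ⟨δ', hδ'⟩ : ∃ δ', δ' = δ / M := ⟨_, rfl⟩
  have hδ'0 : 0 < δ' := by rw [hδ']; positivity
  have hlow : ∀ u, ∀ z ∈ ball (0 : V m) 1, δ' ≤ ∑ j, ‖F u j z‖ := by
    intro u z hz
    have h1 : ∑ j, ‖F u j z‖ = (∑ j, ‖f j z‖) / M := by
      rw [Finset.sum_div]
      refine Finset.sum_congr rfl fun j _ => ?_
      rw [hFz, norm_div, hMn]
    rw [h1, hδ']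
    have := hc z hz
    gcongr
  have hN0 : (0 : ℝ) ≤ N := Nat.cast_nonneg N
  obtain ⟨ε, hε⟩ : ∃ ε : ℝ, ε = δ' / (4 * (N + 1)) := ⟨_, rfl⟩
  have hε0 : 0 < ε := by rw [hε]; positivity
  have hεδ : 2 * N * ε < δ' := by
    have h1 : 4 * (N + 1) * ε = δ' := by rw [hε]; field_simp
    nlinarith
  choose h hh hfh using fun j => hf j (M * ε / 2) (by positivity)
  obtain ⟨κ, Λ, iκ, iΛ, e₀, e, g, b, hg, hb, hhb⟩ := adjoin_rep _ _ G h hh
  have hbAS : ∀ j k, AS (b j k) := fun j k => hAS _ (hb j k)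
  choose B hB using fun j k => (hbAS j k).2.1
  obtain ⟨Bm, hBm⟩ : ∃ Bm : ℝ, Bm = ∑ j, ∑ k, |B j k| := ⟨_, rfl⟩
  have hBm0 : 0 ≤ Bm := by
    rw [hBm]
    exact Finset.sum_nonneg fun j _ => Finset.sum_nonneg fun k _ => abs_nonneg _
  have hbB : ∀ j k, ∀ z ∈ ball (0 : V m) 1, ‖b j k z‖ ≤ Bm := by
    intro j k z hz
    have h1 := (hB j k z hz).trans (le_abs_self _)
    have h2 := Finset.single_le_sum (f := fun k => |B j k|) (fun j _ => abs_nonneg _)
      (Finset.mem_univ k)
    have h3 := Finset.single_le_sum (f := fun j => ∑ k, |B j k|)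
      (fun j _ => Finset.sum_nonneg fun k _ => abs_nonneg _) (Finset.mem_univ j)
    rw [hBm]
    linarith
  obtain ⟨n, hn⟩ : ∃ n, n = Finset.univ.sup e₀ := ⟨_, rfl⟩
  have hen : ∀ k, e₀ k ≤ n := fun k => by rw [hn]; exact Finset.le_sup (Finset.mem_univ k)
  have hsolv : Solv F := by
    refine loc_glob hFH (fun z hz => ⟨δ', hδ'0, fun u => hlow u z hz⟩) fun p hp => ?_
    refine whit2 t_mv t_ball hp hFH hδ'0 one_pos (fun u z hz => hlow u z hz.1) ?_
    intro q hq hpq
    -- asymptotic functions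
    choose C hC1 hC2 hC3 hC4 using fun j k => (hbAS j k).2.2 p hp
    obtain ⟨η, hη⟩ : ∃ η : ℝ, η = M * ε / (6 * (Fintype.card κ + 1) * MG ^ n) := ⟨_, rfl⟩
    have hMGn : 0 < MG ^ n := by positivity
    have hη0 : 0 < η := by rw [hη]; positivity
    have hηn : Fintype.card κ * (3 * η * MG ^ n) ≤ M * ε / 2 := by
      have h1 : 6 * (Fintype.card κ + 1) * MG ^ n * η = M * ε := by rw [hη]; field_simp
      have h2 : (0 : ℝ) ≤ Fintype.card κ := Nat.cast_nonneg _
      nlinarith [mul_pos hη0 hMGn]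
    -- radius at `q`
    have hr : ∃ r : ℝ, 0 < r ∧ ∀ j k, ∀ a ∈ ball (0 : ℂ) 1, ∀ z ∈ ball (0 : V m) 1,
        ∀ w ∈ ball (0 : V m) 1, ‖z - q‖ < r → ‖w - q‖ < r →
          ‖C j k (mv p a z) - C j k (mv p a w)‖ ≤ η := by
      choose r hr0 hr using fun j k => hC3 j k q hq hpq η hη0
      have h1 : ∀ᶠ s in 𝓝[>] (0 : ℝ), ∀ j k, s < r j k := by
        rw [Filter.eventually_all]
        intro j
        rw [Filter.eventually_all]
        intro k
        filter_upwards [Ioo_mem_nhdsGT (hr0 j k)] with s hs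
        exact hs.2
      obtain ⟨s, hs, hs0⟩ := (h1.and self_mem_nhdsWithin).exists
      exact ⟨s, hs0, fun j k a ha z hz w hw hzq hwq =>
        hr j k a ha z hz w hw (hzq.trans (hs j k)) (hwq.trans (hs j k))⟩
    obtain ⟨r, hr0, hr⟩ := hr
    -- neighbourhood of `p`
    have ht : ∃ t : ℝ, 0 < t ∧ ∀ z ∈ ball (0 : V m) 1, ‖z - p‖ < t → ∀ j k,
        ‖b j k z - C j k z‖ ≤ η := by
      have h1 : ∀ᶠ z in 𝓝[ball (0 : V m) 1] p, ∀ j k, ‖b j k z - C j k z‖ ≤ η := by
        rw [Filter.eventually_all]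
        intro j
        rw [Filter.eventually_all]
        intro k
        have h2 := (hC4 j k).norm
        rw [norm_zero] at h2
        exact (h2.eventually_lt_const hη0).mono fun z hz => hz.le
      rw [eventually_nhdsWithin_iff, Metric.eventually_nhds_iff] at h1
      obtain ⟨t, ht, h2⟩ := h1
      exact ⟨t, ht, fun z hz hzp => h2 (by rw [dist_eq_norm]; exact hzp) hz⟩
    obtain ⟨t, ht0, ht⟩ := ht
    refine ⟨t ^ 2 / 6, by positivity, ?_⟩
    obtain ⟨ρ, hρ⟩ : ∃ ρ, ρ = min r (1 / 2) := ⟨_, rfl⟩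
    have hρ0 : 0 < ρ := by rw [hρ]; positivity
    have hρr : ρ ≤ r := by rw [hρ]; exact min_le_left _ _
    have hρ2 : ρ ≤ 1 / 2 := by rw [hρ]; exact min_le_right _ _
    -- base point of the cell
    obtain ⟨z₀, hz₀⟩ : ∃ z₀ : V m, z₀ = ((1 - ρ / 2 : ℝ) : ℂ) • q := ⟨_, rfl⟩
    have hz₀1 : z₀ ∈ ball (0 : V m) 1 := by
      rw [mem_ball_zero_iff, hz₀, norm_smul, hq, Complex.norm_real,
        Real.norm_of_nonneg (by linarith)]
      linarith
    have hz₀q : ‖z₀ - q‖ < ρ := by
      have h3 : z₀ - q = (-(ρ / 2 : ℝ) : ℂ) • q := by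
        rw [hz₀]
        push_cast
        module
      rw [h3, norm_smul, hq, norm_neg, Complex.norm_real, Real.norm_of_nonneg (by linarith)]
      linarith
    have hFH2 : ∀ (x : Unit × Nr (t ^ 2 / 6)) (j : Fin N), HB (fun z => F x.1 j (mv p x.2 z)) :=
      fun x j => (hFH x.1 j).comp (aut_mv t_mv hp x.2.2.1)
    refine case_ev (F := fun (x : Unit × Nr (t ^ 2 / 6)) j z => F x.1 j (mv p x.2 z)) hq e₀ e hFH2
      (ρ := ρ) (K := Bm * MG ^ n / M) hρ0 hεδ hε0.le ?_
    rintro ⟨u, c, hc1, hc2⟩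
    simp only
    have A := aut_mv t_mv hp hc1
    have hnear : ∀ z ∈ ball (0 : V m) 1 ∩ ball q ρ, ‖mv p c z - p‖ < t := by
      rintro z ⟨hz, hzq⟩
      rw [mem_ball, dist_eq_norm] at hzq
      by_contra hcon
      push Not at hcon
      have h1 := (one_sub_mv t_mv hp hc1 hpq hz (by linarith)).1
      have h2 := A.m1 hz
      rw [mem_ball_zero_iff] at h2
      have h3 := one_sub_inner hp h2.le ht0.le hcon
      linarith
    have hz₀m : z₀ ∈ ball (0 : V m) 1 ∩ ball q ρ := ⟨hz₀1, by rw [mem_ball, dist_eq_norm]; exact hz₀q⟩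
    have hMGp : 0 < MG := by linarith
    have hMGn' : ‖(MG : ℂ)‖ = MG := by rw [Complex.norm_real, Real.norm_of_nonneg hMGp.le]
    have hMGne : (MG : ℂ) ≠ 0 := by exact_mod_cast hMGp.ne'
    refine ⟨Finset.univ, fun z => G (mv p c z) / MG, fun l z => g l (mv p c z),
      fun j k => b j k (mv p c z₀) * (MG : ℂ) ^ e₀ k / M, ?_, ?_,
      fun l => SFn.comp_mv t_mv (hg l) hp hc1, ?_, ?_⟩
    · have h1 : DifferentiableOn ℂ (fun z => G (mv p c z) * (MG : ℂ)⁻¹) (ball 0 1 ∩ ball q ρ) :=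
        ((hG.comp A.d1 A.m1).mono inter_subset_left).mul_const _
      simp only [div_eq_mul_inv]
      exact h1
    · intro z hz
      rw [norm_div, hMGn', div_le_one hMGp]
      exact hGM _ (A.m1 hz.1)
    · intro j k
      rw [norm_div, norm_mul, norm_pow, hMGn', hMn]
      have h1 := hbB j k _ (A.m1 hz₀1)
      have h2 : MG ^ e₀ k ≤ MG ^ n := pow_le_pow_right₀ hMG1 (hen k)
      gcongr
    · intro z hz
      refine ⟨?_, ?_⟩
      · exact hlow u _ (A.m1 hz.1)
      · intro j _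
        have hmz := A.m1 hz.1
        have h1 := hfh j _ hmz
        rw [hhb] at h1
        have h2 : ∀ k, ‖b j k (mv p c z) - b j k (mv p c z₀)‖ ≤ 3 * η := by
          intro k
          have h3 := ht _ hmz (hnear z hz) j k
          have h4 := ht _ (A.m1 hz₀1) (hnear z₀ hz₀m) j k
          have hzq := hz.2
          rw [mem_ball, dist_eq_norm] at hzq
          have h5 := hr j k c hc1 z hz.1 z₀ hz₀1 (by linarith) (by linarith)
          rw [norm_sub_rev] at h4
          calc ‖b j k (mv p c z) - b j k (mv p c z₀)‖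
              = ‖(b j k (mv p c z) - C j k (mv p c z)) + ((C j k (mv p c z) - C j k (mv p c z₀)) +
                  (C j k (mv p c z₀) - b j k (mv p c z₀)))‖ := by congr 1; ring
            _ ≤ η + (η + η) :=
              (norm_add_le _ _).trans (add_le_add h3 ((norm_add_le _ _).trans (add_le_add h5 h4)))
            _ = 3 * η := by ring
        have h3 : Ev e₀ e (fun k => b j k (mv p c z₀) * (MG : ℂ) ^ e₀ k / M)
            (G (mv p c z) / MG) (fun l => g l (mv p c z)) =
            Ev e₀ e (fun k => b j k (mv p c z₀)) (G (mv p c z)) (fun l => g l (mv p c z)) / M := by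
          unfold Ev
          rw [Finset.sum_div]
          refine Finset.sum_congr rfl fun k _ => ?_
          rw [div_pow]
          field_simp
        rw [h3, hFz, ← sub_div, norm_div, hMn, div_le_iff₀ hMp]
        have h4 : ‖Ev e₀ e (fun k => b j k (mv p c z)) (G (mv p c z)) (fun l => g l (mv p c z)) -
            Ev e₀ e (fun k => b j k (mv p c z₀)) (G (mv p c z)) (fun l => g l (mv p c z))‖ ≤
              Fintype.card κ * (3 * η * MG ^ n) := by
          unfold Ev
          rw [← Finset.sum_sub_distrib]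
          refine (norm_sum_le _ _).trans ?_
          have h5 : ∀ k ∈ (Finset.univ : Finset κ),
              ‖b j k (mv p c z) * (G (mv p c z) ^ e₀ k * ∏ l, g l (mv p c z) ^ e k l) -
                b j k (mv p c z₀) * (G (mv p c z) ^ e₀ k * ∏ l, g l (mv p c z) ^ e k l)‖ ≤
                  3 * η * MG ^ n := by
            intro k _
            rw [← sub_mul, norm_mul, norm_mul, norm_pow, norm_prod]
            have h6 : ‖G (mv p c z)‖ ^ e₀ k ≤ MG ^ n :=
              (pow_le_pow_left₀ (norm_nonneg _) (hGM _ hmz) _).trans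
                (pow_le_pow_right₀ hMG1 (hen k))
            have h7 := h2 k
            have h8 : ∏ l, ‖g l (mv p c z) ^ e k l‖ ≤ 1 :=
              Finset.prod_le_one (fun l _ => norm_nonneg _) (fun l _ => by
                rw [norm_pow]
                exact pow_le_one₀ (norm_nonneg _) ((hg l).HB.2 _ hmz))
            calc ‖b j k (mv p c z) - b j k (mv p c z₀)‖ * (‖G (mv p c z)‖ ^ e₀ k *
                  ∏ l, ‖g l (mv p c z) ^ e k l‖) ≤ (3 * η) * (MG ^ n * 1) := by gcongr
              _ = 3 * η * MG ^ n := by ring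
          refine (Finset.sum_le_sum h5).trans (le_of_eq ?_)
          rw [Finset.sum_const, Finset.card_univ, nsmul_eq_mul]
        calc ‖f j (mv p c z) - Ev e₀ e (fun k => b j k (mv p c z₀)) (G (mv p c z))
              (fun l => g l (mv p c z))‖
            = ‖(f j (mv p c z) - Ev e₀ e (fun k => b j k (mv p c z)) (G (mv p c z))
                (fun l => g l (mv p c z))) +
              (Ev e₀ e (fun k => b j k (mv p c z)) (G (mv p c z)) (fun l => g l (mv p c z)) -
                Ev e₀ e (fun k => b j k (mv p c z₀)) (G (mv p c z))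
                  (fun l => g l (mv p c z)))‖ := by congr 1; ring
          _ ≤ M * ε / 2 + M * ε / 2 := (norm_add_le _ _).trans (add_le_add h1 (h4.trans hηn))
          _ = ε * M := by ring
  obtain ⟨C, hC⟩ := hsolv
  obtain ⟨g, hg1, hg2, hg3⟩ := hC ()
  refine ⟨fun j z => g j z / M, fun j => ?_, ⟨C / M, fun j z hz => ?_⟩, fun z hz => ?_⟩
  · have h1 : DifferentiableOn ℂ (fun z => g j z * (M : ℂ)⁻¹) (ball 0 1) := (hg1 j).mul_const _
    simp only [div_eq_mul_inv]
    exact h1
  · rw [norm_div, hMn]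
    have := hg2 j z hz
    gcongr
  · rw [← hg3 z hz]
    refine Finset.sum_congr rfl fun j _ => ?_
    rw [hFz]
    field_simp

end Pool.Agent.U598.Cor
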